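import Pool.Agent.K1H80.KA.StmT

/-!
# Project KA, piece STEPALG: propagation of algebraicity
-/

set_option autoImplicit false

namespace Pool.Agent.K1H64.KT

open Polynomial Finset Pool.Agent.KA

lemma two_ne_zero' (m : ℕ) : (2 : Fin (m + 3)) ≠ 0 := by
  intro h; have h2 := congrArg Fin.val h
  simp at h2
  rw [Nat.mod_eq_of_lt (by omega)] at h2
  omega

lemma two_ne_one' (m : ℕ) : (2 : Fin (m + 3)) ≠ 1 := by
  intro h; have h2 := congrArg Fin.val h
  simp at h2
  rw [Nat.mod_eq_of_lt (by omega)] at h2
  omega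

lemma one_add_one' (m : ℕ) : (1 : Fin (m + 3)) + 1 = 2 := by
  apply Fin.ext
  rw [Fin.val_add]
  simp

/-- a relation of the cyclic sum type makes `T0` algebraic -/
lemma root {L : Type} [Field L] (E : Subfield L) (m : ℕ) (co e : Fin (m + 3) → E) (T0 : L)
    (hT : ∀ s, T0 + (e s : L) ≠ 0)
    (hsum : ∑ s, (co s : L) / ((T0 + (e s : L)) * (T0 + (e (s + 1) : L))) = 0)
    (hne : ∀ j, j ≠ 1 → e j ≠ e 1)
    (hbr : co 0 * (e 2 - e 1) + co 1 * (e 0 - e 1) ≠ 0) : IsAlgebraic E T0 := by
  classical
  have hs1 : ∀ s : Fin (m + 3), s + 1 ≠ s := by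
    intro s h
    have h1 : (1 : Fin (m + 3)) = 0 := by
      have : s + 1 = s + 0 := by rw [add_zero]; exact h
      exact add_left_cancel this
    have h2 := congrArg Fin.val h1
    simp at h2
  have h10 : (1 : Fin (m + 3)) ≠ 0 := by
    intro h; have h2 := congrArg Fin.val h; simp at h2
  have h20 : (2 : Fin (m + 3)) ≠ 0 := two_ne_zero' m
  have h21 : (2 : Fin (m + 3)) ≠ 1 := two_ne_one' m
  have h11 : (1 : Fin (m + 3)) + 1 = 2 := one_add_one' m
  let Q : E[X] := ∑ s, C (co s) * ∏ j ∈ (univ.erase s).erase (s + 1), (X + C (e j))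
  refine ⟨Q, ?_, ?_⟩
  · intro hQ
    have hev : Q.eval (-(e 1)) = 0 := by rw [hQ]; simp
    have hev2 : Q.eval (-(e 1)) =
        ∑ s, co s * ∏ j ∈ (univ.erase s).erase (s + 1), (-(e 1) + e j) := by
      simp only [Q, eval_finsetSum, eval_mul, eval_C, eval_prod, eval_add, eval_X]
    rw [hev2] at hev
    have hrest : ∀ s ∈ (univ : Finset (Fin (m + 3))), s ∉ ({0, 1} : Finset (Fin (m + 3))) →
        co s * ∏ j ∈ (univ.erase s).erase (s + 1), (-(e 1) + e j) = 0 := by
      intro s _ hs
      simp only [mem_insert, mem_singleton, not_or] at hs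
      have hmem : (1 : Fin (m + 3)) ∈ (univ.erase s).erase (s + 1) := by
        simp only [mem_erase, mem_univ, and_true]
        refine ⟨fun h => hs.1 ?_, fun h => hs.2 h.symm⟩
        have : s + 1 = 0 + 1 := by rw [zero_add]; exact h.symm
        exact add_right_cancel this
      rw [prod_eq_zero hmem (by ring), mul_zero]
    rw [← sum_subset (subset_univ ({0, 1} : Finset (Fin (m + 3)))) hrest,
      sum_pair h10.symm, zero_add, h11] at hev
    have p0 : ∏ j ∈ (univ.erase (0 : Fin (m + 3))).erase 1, (-(e 1) + e j) =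
        (-(e 1) + e 2) * ∏ j ∈ ((univ.erase (0 : Fin (m + 3))).erase 1).erase 2,
          (-(e 1) + e j) :=
      (mul_prod_erase _ (fun j => -(e 1) + e j) (by simp [h20, h21])).symm
    have p1 : ∏ j ∈ (univ.erase (1 : Fin (m + 3))).erase 2, (-(e 1) + e j) =
        (-(e 1) + e 0) * ∏ j ∈ ((univ.erase (0 : Fin (m + 3))).erase 1).erase 2,
          (-(e 1) + e j) := by
      have : ((univ.erase (0 : Fin (m + 3))).erase 1).erase 2 =
          ((univ.erase (1 : Fin (m + 3))).erase 2).erase 0 := by
        ext j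
        simp only [mem_erase, mem_univ]
        tauto
      rw [this]
      exact (mul_prod_erase _ (fun j => -(e 1) + e j) (by simp [h20.symm, h10.symm])).symm
    rw [p0, p1] at hev
    have hR : ∏ j ∈ ((univ.erase (0 : Fin (m + 3))).erase 1).erase 2, (-(e 1) + e j) ≠ 0 := by
      rw [prod_ne_zero_iff]
      intro j hj
      simp only [mem_erase] at hj
      intro h
      exact hne j hj.2.1 (by linear_combination h)
    apply hbr
    have : (∏ j ∈ ((univ.erase (0 : Fin (m + 3))).erase 1).erase 2, (-(e 1) + e j)) *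
        (co 0 * (e 2 - e 1) + co 1 * (e 0 - e 1)) = 0 := by
      linear_combination hev
    exact (mul_eq_zero.mp this).resolve_left hR
  · have h1 : aeval T0 Q = ∑ s, (co s : L) *
        ∏ j ∈ (univ.erase s).erase (s + 1), (T0 + (e j : L)) := by
      simp only [Q, map_sum, map_mul, aeval_C, map_prod, map_add, aeval_X]
      rfl
    rw [h1]
    have h2 : ∀ s : Fin (m + 3), (co s : L) * ∏ j ∈ (univ.erase s).erase (s + 1),
        (T0 + (e j : L)) = (co s : L) / ((T0 + (e s : L)) * (T0 + (e (s + 1) : L))) *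
          ∏ j, (T0 + (e j : L)) := by
      intro s
      have h3 : ∏ j, (T0 + (e j : L)) = (T0 + (e s : L)) * ((T0 + (e (s + 1) : L)) *
          ∏ j ∈ (univ.erase s).erase (s + 1), (T0 + (e j : L))) := by
        rw [mul_prod_erase _ (fun j => T0 + (e j : L)) (by simp [hs1 s]),
          mul_prod_erase _ (fun j => T0 + (e j : L)) (mem_univ s)]
      rw [h3]
      have h4 := hT s
      have h5 := hT (s + 1)
      field_simp
    rw [sum_congr rfl (fun s _ => h2 s), ← sum_mul, hsum, zero_mul]

lemma inj3 {X : Type} {p q r : X} (h1 : p ≠ q) (h2 : p ≠ r) (h3 : q ≠ r) :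
    Function.Injective ![p, q, r] := by
  intro i j hij
  fin_cases i <;> fin_cases j <;> simp at hij ⊢ <;>
    first | exact h1 hij | exact h1 hij.symm | exact h2 hij | exact h2 hij.symm |
      exact h3 hij | exact h3 hij.symm

theorem stepalg : STEPALGStm := by
  intro V W L _ G H x hx B hB E halg hE a v y hav hvy hay ha
  have hva : v ≠ a := hav.ne.symm
  have hvy' : v ≠ y := hvy.ne
  set r : W → L := fun k => x v k / x a k with hr
  have hadj : ∀ k ∈ B, ∀ l ∈ B, H.Adj k l → r k - r l ∈ E := by
    intro k hk l hl h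
    have h1 := hE v a k hk l hl hav.symm h
    have h2 : r k - r l = (x v k * x a l - x v l * x a k) / (x a k * x a l) := by
      have := hx.ne a k
      have := hx.ne a l
      simp only [hr]
      field_simp
    rw [h2]
    exact E.div_mem h1 (E.mul_mem (ha k hk) (ha l hl))
  have hall : ∀ k ∈ B, ∀ l ∈ B, r k - r l ∈ E := by
    intro k hk l hl
    have h1 := hB.con (Set L) (fun k => {z | z - r k ∈ E}) (by
      intro k hk l hl h
      have h2 := hadj k hk l hl h
      ext z
      simp only [Set.mem_ofPred_eq]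
      constructor
      · intro h3
        have := E.add_mem h3 h2
        have h4 : z - r l = z - r k + (r k - r l) := by ring
        rw [h4]; exact this
      · intro h3
        have := E.sub_mem h3 h2
        have h4 : z - r k = z - r l - (r k - r l) := by ring
        rw [h4]; exact this) k hk l hl
    have h5 : r k ∈ {z | z - r k ∈ E} := by
      simp only [Set.mem_ofPred_eq, sub_self]
      exact E.zero_mem
    have h6 : r k ∈ {z | z - r l ∈ E} := by
      have h7 : {z | z - r k ∈ E} = {z | z - r l ∈ E} := h1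
      rw [← h7]; exact h5
    exact h6
  obtain ⟨m, c, hc, hcB, hcH⟩ := hB.cyc
  have h10 : (1 : Fin (m + 3)) ≠ 0 := by
    intro h; have h2 := congrArg Fin.val h; simp at h2
  have h20 : (2 : Fin (m + 3)) ≠ 0 := two_ne_zero' m
  have h21 : (2 : Fin (m + 3)) ≠ 1 := two_ne_one' m
  have h11 : (1 : Fin (m + 3)) + 1 = 2 := one_add_one' m
  have hA : ∀ s, x a (c s) ≠ 0 := fun s => hx.ne a (c s)
  have hV : ∀ s, x v (c s) ≠ 0 := fun s => hx.ne v (c s)
  let e : Fin (m + 3) → E := fun s => ⟨r (c s) - r (c 0), hall _ (hcB s) _ (hcB 0)⟩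
  let co : Fin (m + 3) → E := fun s =>
    ⟨(x v (c s) * x y (c (s + 1)) - x v (c (s + 1)) * x y (c s)) / (x a (c s) * x a (c (s + 1))),
      E.div_mem (hE v y _ (hcB s) _ (hcB (s + 1)) hvy (hcH s))
        (E.mul_mem (ha _ (hcB s)) (ha _ (hcB (s + 1))))⟩
  have he : ∀ s, (e s : L) = r (c s) - r (c 0) := fun s => rfl
  have hco : ∀ s, (co s : L) = (x v (c s) * x y (c (s + 1)) - x v (c (s + 1)) * x y (c s)) /
    (x a (c s) * x a (c (s + 1))) := fun s => rfl
  have hTe : ∀ s, r (c 0) + (e s : L) = x v (c s) / x a (c s) := by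
    intro s; rw [he]; simp only [hr]; ring
  have hTalg : IsAlgebraic E (r (c 0)) := by
    apply root E m co e
    · intro s
      rw [hTe]
      exact div_ne_zero (hV s) (hA s)
    · have h1 : ∀ s : Fin (m + 3), (co s : L) / ((r (c 0) + (e s : L)) *
          (r (c 0) + (e (s + 1) : L))) =
          x y (c (s + 1)) / x v (c (s + 1)) - x y (c s) / x v (c s) := by
        intro s
        rw [hTe, hTe, hco]
        have := hA s
        have := hA (s + 1)
        have := hV s
        have := hV (s + 1)
        field_simp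
      rw [sum_congr rfl (fun s _ => h1 s), sum_sub_distrib, sub_eq_zero]
      exact Equiv.sum_comp (Equiv.addRight (1 : Fin (m + 3))) (fun s => x y (c s) / x v (c s))
    · intro j hj h
      have h1 : (e j : L) = (e 1 : L) := by rw [h]
      rw [he, he] at h1
      have h2 : r (c j) = r (c 1) := by linear_combination h1
      simp only [hr] at h2
      rw [div_eq_div_iff (hA j) (hA 1)] at h2
      exact hx.two v a (c j) (c 1) hva (fun h => hj (hc h)) (by linear_combination h2)
    · intro h
      have h1 : (co 0 : L) * ((e 2 : L) - (e 1 : L)) + (co 1 : L) * ((e 0 : L) - (e 1 : L)) = 0 := by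
        have := congrArg (fun z : E => (z : L)) h
        simpa using this
      rw [hco, hco, he, he, he, h11, zero_add] at h1
      simp only [hr] at h1
      have ha0 := hA 0
      have ha1 := hA 1
      have ha2 := hA 2
      have hv1 := hV 1
      have hdet := hx.three ![v, y, a] ![c 0, c 1, c 2]
        (inj3 hvy' hva hay.symm)
        (inj3 (fun h => h10 (hc h).symm) (fun h => h20 (hc h).symm) (fun h => h21 (hc h).symm))
      apply hdet
      rw [Matrix.det_fin_three]
      simp only [Matrix.of_apply, Matrix.cons_val]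
      have h1' : (x v (c 0) * x y (c 1) - x v (c 1) * x y (c 0)) / (x a (c 0) * x a (c 1)) *
          (x v (c 2) / x a (c 2) - x v (c 1) / x a (c 1)) +
          (x v (c 1) * x y (c 2) - x v (c 2) * x y (c 1)) / (x a (c 1) * x a (c 2)) *
          (x v (c 0) / x a (c 0) - x v (c 1) / x a (c 1)) = 0 := by
        linear_combination h1
      have h3 : x v (c 1) * (x v (c 0) * x y (c 1) * x a (c 2) - x v (c 0) * x y (c 2) * x a (c 1) -
          x v (c 1) * x y (c 0) * x a (c 2) + x v (c 1) * x y (c 2) * x a (c 0) +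
          x v (c 2) * x y (c 0) * x a (c 1) - x v (c 2) * x y (c 1) * x a (c 0)) = 0 := by
        have h5 : x v (c 1) * (x v (c 0) * x y (c 1) * x a (c 2) -
            x v (c 0) * x y (c 2) * x a (c 1) -
            x v (c 1) * x y (c 0) * x a (c 2) + x v (c 1) * x y (c 2) * x a (c 0) +
            x v (c 2) * x y (c 0) * x a (c 1) - x v (c 2) * x y (c 1) * x a (c 0)) =
            -(x a (c 0) * x a (c 1) ^ 2 * x a (c 2)) *
          ((x v (c 0) * x y (c 1) - x v (c 1) * x y (c 0)) / (x a (c 0) * x a (c 1)) *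
          (x v (c 2) / x a (c 2) - x v (c 1) / x a (c 1)) +
          (x v (c 1) * x y (c 2) - x v (c 2) * x y (c 1)) / (x a (c 1) * x a (c 2)) *
          (x v (c 0) / x a (c 0) - x v (c 1) / x a (c 1))) := by
          field_simp
          ring
        rw [h5, h1', mul_zero]
      have h4 := (mul_eq_zero.mp h3).resolve_left hv1
      linear_combination h4
  have hT0 : r (c 0) ∈ E := halg _ hTalg
  intro k hk
  have h1 : r k ∈ E := by
    have := E.add_mem (hall k hk _ (hcB 0)) hT0
    have h2 : r k = r k - r (c 0) + r (c 0) := by ring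
    rw [h2]; exact this
  have h2 : x v k = r k * x a k := by
    simp only [hr]
    have := hx.ne a k
    field_simp
  rw [h2]
  exact E.mul_mem h1 (ha k hk)

end Pool.Agent.K1H64.KT
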